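import Pool.Graph.R_pool_sql_team_seeded_3997aac3.Q14.LQ.EF
import Pool.Graph.R_pool_sql_team_seeded_3997aac3.Q253.NF.Stm

/-!
# Project NF, job EF: the explicit formula for general L-functions

An adaptation of `Q14/LQ/EF1.lean`, …, `EF.lean` (the case of Dirichlet characters).
-/

set_option autoImplicit false

namespace Pool.Agent.H734.NF

open MeasureTheory Filter Topology Set Complex
open Pool.Agent.Q253.NF
open Pool.Agent.Q14.LQ (XS XS_int XS_cont XS_bound XS_norm_le TT TT_pole TT_const TT_GR dk dk_sum bk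
  bk_pos bk_ne lt_unique half_re')

variable (D : Dat)

/-- the coefficients of the sum over the zeros -/
noncomputable def cz (a : ℂ) : ℂ := (D.m a : ℂ) * (2 / (1 - a ^ 2))

/-- the set of the zeros -/
def SZ : Set ℂ := {a : ℂ | D.m a ≠ 0}

variable {D}

theorem SZ_strip {a : ℂ} (ha : a ∈ SZ D) : |a.re| ≤ 1 / 2 := by
  apply D.strip
  by_contra h0
  apply ha
  have h1 : analyticOrderAt D.X a = 0 := (D.diff.analyticAt a).analyticOrderAt_eq_zero.2 h0
  show analyticOrderNatAt D.X a = 0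
  unfold analyticOrderNatAt
  rw [h1]
  rfl

theorem re_sq {a : ℂ} (ha : |a.re| ≤ 1 / 2) : 3 / 10 * (1 + ‖a‖ ^ 2) ≤ (1 - a ^ 2).re := by
  have h1 : (1 - a ^ 2).re = 1 - a.re ^ 2 + a.im ^ 2 := by
    rw [sq, Complex.sub_re, Complex.mul_re, Complex.one_re]
    ring
  have h2 : ‖a‖ ^ 2 = a.re ^ 2 + a.im ^ 2 := by
    rw [← Complex.normSq_eq_norm_sq, Complex.normSq_apply]
    ring
  rw [h1, h2]
  have h3 : a.re ^ 2 ≤ 1 / 4 := by
    have := sq_le_sq' (by linarith [abs_le.1 ha] : -(1 / 2) ≤ a.re) (abs_le.1 ha).2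
    linarith
  nlinarith [sq_nonneg a.im, sq_nonneg a.re]

theorem cz_le (a : ℂ) : ‖cz D a‖ ≤ 20 / 3 * ((D.m a : ℝ) / (1 + ‖a‖ ^ 2)) := by
  by_cases h0 : a ∈ SZ D
  · have h1 := re_sq (SZ_strip h0)
    have h2 : 3 / 10 * (1 + ‖a‖ ^ 2) ≤ ‖1 - a ^ 2‖ := h1.trans (Complex.re_le_norm _)
    have h3 : 0 < 3 / 10 * (1 + ‖a‖ ^ 2) := by positivity
    unfold cz
    rw [norm_mul, norm_div, Complex.norm_natCast, Complex.norm_ofNat]
    have h4 : 2 / ‖1 - a ^ 2‖ ≤ 2 / (3 / 10 * (1 + ‖a‖ ^ 2)) :=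
      div_le_div_of_nonneg_left (by norm_num) h3 h2
    calc (D.m a : ℝ) * (2 / ‖1 - a ^ 2‖) ≤ (D.m a : ℝ) * (2 / (3 / 10 * (1 + ‖a‖ ^ 2))) :=
          mul_le_mul_of_nonneg_left h4 (Nat.cast_nonneg _)
      _ = 20 / 3 * ((D.m a : ℝ) / (1 + ‖a‖ ^ 2)) := by
          have : 1 + ‖a‖ ^ 2 ≠ 0 := by positivity
          field_simp
          ring
  · have h1 : D.m a = 0 := not_not.1 h0
    unfold cz
    rw [h1]
    simp

theorem cz_supp (f : ℂ → ℂ) : Function.support (fun a : ℂ => cz D a * f a) ⊆ SZ D := by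
  intro a ha
  rw [Function.mem_support] at ha
  intro h0
  refine ha ?_
  have h0 : D.m a = 0 := h0
  unfold cz
  rw [h0]
  simp

section sums
variable (hs : Summable (fun a : ℂ => (D.m a : ℝ) / (1 + ‖a‖ ^ 2)))

include hs

theorem SZ_countable : (SZ D).Countable := by
  refine hs.countable_support.mono fun a ha => ?_
  rw [Function.mem_support]
  refine div_ne_zero ?_ (by positivity)
  have ha' : D.m a ≠ 0 := ha
  exact_mod_cast ha'

theorem cz_sum : Summable (fun a : ℂ => ‖cz D a‖) :=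
  Summable.of_nonneg_of_le (fun _ => norm_nonneg _) cz_le (hs.mul_left _)

theorem cz_sum' : Summable (fun a : SZ D => ‖cz D a‖) := (cz_sum hs).subtype _

end sums

theorem Z_eq (u : ℝ) : D.Z u = cexp (1 / 2 * u) *
    XS (fun a : SZ D => cz D a) (fun a : SZ D => 1 / 2 - (a : ℂ)) u := by
  unfold XS
  rw [← tsum_mul_left]
  have h := tsum_subtype_eq_of_support_subset (cz_supp (D := D) (fun a : ℂ => cexp (a * u)))
  have h1 : D.Z u = ∑' a : ℂ, cz D a * cexp (a * u) := rfl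
  rw [h1, ← h]
  refine tsum_congr fun a => ?_
  rw [mul_left_comm, ← Complex.exp_add]
  congr 2
  ring

theorem l_re (a : SZ D) : 0 ≤ (1 / 2 - (a : ℂ)).re := by
  rw [Complex.sub_re, half_re']
  linarith [(abs_le.1 (SZ_strip a.2)).2]

theorem Z_cont (hs : Summable (fun a : ℂ => (D.m a : ℝ) / (1 + ‖a‖ ^ 2))) :
    ContinuousOn D.Z (Ioi 0) := by
  have e : D.Z = fun u : ℝ => cexp (1 / 2 * u) *
      XS (fun a : SZ D => cz D a) (fun a : SZ D => 1 / 2 - (a : ℂ)) u := funext Z_eq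
  rw [e]
  exact (by fun_prop : Continuous fun u : ℝ => cexp (1 / 2 * u)).continuousOn.mul
    (XS_cont l_re (cz_sum' hs))

theorem one_sq_ne {a : ℂ} (ha : |a.re| ≤ 1 / 2) : 1 - a ^ 2 ≠ 0 := by
  intro h
  have h1 := re_sq ha
  rw [h, Complex.zero_re] at h1
  have : 0 < 3 / 10 * (1 + ‖a‖ ^ 2) := by positivity
  linarith

theorem Z_LT (hPF : S_PF) {z : ℂ} (hz : 1 < z.re) :
    IntegrableOn (fun u : ℝ => D.Z u * cexp (-z * u)) (Ioi 0) ∧
      ∫ u in Ioi (0 : ℝ), D.Z u * cexp (-z * u) =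
        2 / (1 - z ^ 2) * (logDeriv D.X z - logDeriv D.X 1) + (∑' a : ℂ, cz D a) / (1 + z) := by
  obtain ⟨hs, hdiff, -⟩ := hPF D
  have : Countable (SZ D) := (SZ_countable hs).to_subtype
  have hz2 : 0 < (z - 1 / 2).re := by
    rw [Complex.sub_re, half_re']
    linarith
  have key := XS_int (c := fun a : SZ D => cz D a) (l := fun a : SZ D => 1 / 2 - (a : ℂ))
    l_re (cz_sum' hs) hz2
  have e : (fun u : ℝ => D.Z u * cexp (-z * u)) = fun u : ℝ =>
      XS (fun a : SZ D => cz D a) (fun a : SZ D => 1 / 2 - (a : ℂ)) u * cexp (-(z - 1 / 2) * u) := by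
    funext u
    rw [Z_eq, mul_right_comm, ← Complex.exp_add, mul_comm]
    congr 2
    ring
  rw [e]
  refine ⟨key.1, ?_⟩
  rw [key.2]
  have e1 : ∑' a : SZ D, cz D a / (1 / 2 - (a : ℂ) + (z - 1 / 2)) = ∑' a : ℂ, cz D a / (z - a) := by
    have h := tsum_subtype_eq_of_support_subset (cz_supp (D := D) (fun a : ℂ => 1 / (z - a)))
    have e2 : ∀ a : ℂ, cz D a / (z - a) = cz D a * (1 / (z - a)) := fun a => by ring
    simp_rw [e2]
    rw [← h]
    refine tsum_congr fun a => ?_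
    have : 1 / 2 - (a : ℂ) + (z - 1 / 2) = z - a := by ring
    rw [this]
    ring
  rw [e1]
  have h1' : 1 - z ≠ 0 := by
    intro h
    have := congrArg Complex.re h
    simp at this
    linarith
  have h2' : 1 + z ≠ 0 := by
    intro h
    have := congrArg Complex.re h
    simp at this
    linarith
  have h3' : 1 - z ^ 2 ≠ 0 := by
    have : 1 - z ^ 2 = (1 - z) * (1 + z) := by ring
    rw [this]
    exact mul_ne_zero h1' h2'
  have sC : Summable (fun a : ℂ => cz D a) := (cz_sum hs).of_norm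
  have sA : Summable (fun a : ℂ => cz D a / (z - a)) := by
    refine Summable.of_norm_bounded ((cz_sum hs).mul_right 2) fun a => ?_
    by_cases ha : a ∈ SZ D
    · rw [norm_div, div_eq_mul_one_div]
      refine mul_le_mul_of_nonneg_left ?_ (norm_nonneg _)
      have h4 := Complex.re_le_norm (z - a)
      rw [Complex.sub_re] at h4
      have h5 := (abs_le.1 (SZ_strip ha)).2
      have h6 : 1 / 2 ≤ ‖z - a‖ := by linarith
      calc 1 / ‖z - a‖ ≤ 1 / (1 / 2) := one_div_le_one_div_of_le (by norm_num) h6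
        _ = 2 := by norm_num
    · have h1 : D.m a = 0 := not_not.1 ha
      unfold cz
      rw [h1]
      simp
  have hT : ∀ a : ℂ, (D.m a : ℂ) * (1 / (z - a) - 1 / (1 - a)) =
      (1 - z ^ 2) / 2 * (cz D a / (z - a) - 1 / (1 + z) * cz D a) := by
    intro a
    by_cases ha : a ∈ SZ D
    · have h5 := SZ_strip ha
      have n0 := one_sq_ne h5
      have n1 : z - a ≠ 0 := by
        intro h
        have := congrArg Complex.re h
        rw [Complex.sub_re, Complex.zero_re] at this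
        linarith [(abs_le.1 h5).2]
      have e5 : 1 - a ^ 2 = (1 - a) * (1 + a) := by ring
      rw [e5] at n0
      have n2 := left_ne_zero_of_mul n0
      have n3 := right_ne_zero_of_mul n0
      unfold cz
      rw [e5]
      generalize (D.m a : ℂ) = m
      field_simp
      ring
    · have h1 : D.m a = 0 := not_not.1 ha
      unfold cz
      rw [h1]
      simp
  have hd := hdiff z 1 (by rw [abs_of_pos (by linarith)]; linarith) (by norm_num)
  rw [tsum_congr hT, tsum_mul_left, Summable.tsum_sub sA (sC.mul_left _), tsum_mul_left] at hd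
  rw [hd]
  generalize ∑' a : ℂ, cz D a / (z - a) = A
  generalize ∑' a : ℂ, cz D a = B
  field_simp
  ring

/-- the explicit formula for `u > 0` -/
theorem formula (D : Dat) (hPF : S_PF) : ∃ K : ℂ, ∀ u : ℝ, 0 < u →
    D.P u + D.Z u = K * cexp (-1 * u) + (D.p * (8 / 3)) * cexp (-(1 / 2) * u) +
      (D.m0 * XS (dk 0) (fun k => ((bk 0 k : ℝ) : ℂ)) u +
        D.m1 * XS (dk 1) (fun k => ((bk 1 k : ℝ) : ℂ)) u) := by
  obtain ⟨K0, hK0⟩ := TT_GR (a := 0) le_rfl zero_le_one (bk_ne (Or.inl rfl))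
  obtain ⟨K1, hK1⟩ := TT_GR (a := 1) zero_le_one le_rfl (bk_ne (Or.inr rfl))
  obtain ⟨hs, _, _⟩ := hPF D
  have hl0 : ∀ k : ℕ, 0 ≤ (((bk 0 k : ℝ) : ℂ)).re := fun k => by
    rw [Complex.ofReal_re]
    linarith [bk_pos le_rfl k]
  have hl1 : ∀ k : ℕ, 0 ≤ (((bk 1 k : ℝ) : ℂ)).re := fun k => by
    rw [Complex.ofReal_re]
    linarith [bk_pos zero_le_one k]
  have hk0 := dk_sum (a := 0) le_rfl
  have hk1 := dk_sum (a := 1) zero_le_one
  set K : ℂ := D.A + D.m0 * K0 + D.m1 * K1 - D.p * (8 / 3) - logDeriv D.X 1 +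
    ∑' a : ℂ, cz D a with hK
  refine ⟨K, fun u hu => ?_⟩
  set g : ℝ → ℂ := fun u => (D.E u - (D.p * (8 / 3)) * cexp (1 / 2 * u) + D.Z u) -
    (K * cexp (-1 * u) + (D.p * (8 / 3)) * cexp (-(1 / 2) * u) +
      (D.m0 * XS (dk 0) (fun k => ((bk 0 k : ℝ) : ℂ)) u +
        D.m1 * XS (dk 1) (fun k => ((bk 1 k : ℝ) : ℂ)) u)) with hg
  have hgc : ContinuousOn g (Ioi 0) := by
    refine ContinuousOn.sub (ContinuousOn.add ?_ (Z_cont hs)) (ContinuousOn.add ?_
      ((continuousOn_const.mul (XS_cont hl0 hk0)).add (continuousOn_const.mul (XS_cont hl1 hk1))))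
    · exact (D.cont.sub (by fun_prop)).continuousOn
    · exact (by fun_prop : Continuous fun u : ℝ => K * cexp (-1 * u) +
        (D.p * (8 / 3)) * cexp (-(1 / 2) * u)).continuousOn
  -- the transforms
  have key : ∀ z : ℂ, 1 < z.re → IntegrableOn (fun u : ℝ => g u * cexp (-z * u)) (Ioi 0) ∧
      ∫ u in Ioi (0 : ℝ), g u * cexp (-z * u) = 0 := by
    intro z hz
    have h1 : z ≠ 1 := by
      rintro rfl
      simp at hz
    have h1' : 1 - z ≠ 0 := sub_ne_zero.2 (Ne.symm h1)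
    have h2' : 1 + z ≠ 0 := by
      intro h
      have := congrArg Complex.re h
      simp at this
      linarith
    have h3' : -(1 / 2) + z ≠ 0 := by
      intro h
      have := congrArg Complex.re h
      rw [Complex.add_re, Complex.neg_re, half_re'] at this
      simp at this
      linarith
    have h4' : 1 / 2 + z ≠ 0 := by
      intro h
      have := congrArg Complex.re h
      rw [Complex.add_re, half_re'] at this
      simp at this
      linarith
    obtain ⟨i1, j1⟩ := D.lt z hz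
    have iexp : ∀ b : ℂ, 0 < (b + z).re → IntegrableOn (fun u : ℝ => cexp (-b * u) * cexp (-z * u)) (Ioi 0) ∧
        ∫ u in Ioi (0 : ℝ), cexp (-b * u) * cexp (-z * u) = 1 / (b + z) := by
      intro b hb
      have e1 : ∀ u : ℝ, cexp (-b * u) * cexp (-z * u) = cexp (-(b + z) * u) := by
        intro u
        rw [← Complex.exp_add]
        congr 1
        ring
      simp_rw [e1]
      have hb' : (-(b + z)).re < 0 := by
        rw [Complex.neg_re]
        linarith
      refine ⟨integrableOn_exp_mul_complex_Ioi hb' 0, ?_⟩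
      rw [integral_exp_mul_complex_Ioi hb', Complex.ofReal_zero, mul_zero, Complex.exp_zero,
        neg_div_neg_eq]
    obtain ⟨i2, j2⟩ := iexp (-(1 / 2)) (by
      rw [Complex.add_re, Complex.neg_re, half_re']
      linarith)
    obtain ⟨i3, j3⟩ := Z_LT (D := D) hPF hz
    obtain ⟨i4, j4⟩ := iexp 1 (by
      rw [Complex.add_re, Complex.one_re]
      linarith)
    obtain ⟨i5, j5⟩ := iexp (1 / 2) (by
      rw [Complex.add_re, half_re']
      linarith)
    obtain ⟨i6, j6⟩ := XS_int hl0 hk0 (z := z) (by linarith)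
    obtain ⟨i7, j7⟩ := XS_int hl1 hk1 (z := z) (by linarith)
    have e1 : (fun u : ℝ => g u * cexp (-z * u)) = fun u : ℝ =>
        ((D.E u * cexp (-z * u) - (D.p * (8 / 3)) * (cexp (-(-(1 / 2)) * u) * cexp (-z * u))) +
          D.Z u * cexp (-z * u)) -
        ((K * (cexp (-1 * u) * cexp (-z * u)) + (D.p * (8 / 3)) * (cexp (-(1 / 2) * u) * cexp (-z * u))) +
          (D.m0 * (XS (dk 0) (fun k => ((bk 0 k : ℝ) : ℂ)) u * cexp (-z * u)) +
            D.m1 * (XS (dk 1) (fun k => ((bk 1 k : ℝ) : ℂ)) u * cexp (-z * u)))) := by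
      funext u
      simp only [hg, neg_neg]
      ring
    have I12 := i1.sub (i2.const_mul (D.p * (8 / 3) : ℂ))
    have I45 := (i4.const_mul K).add (i5.const_mul (D.p * (8 / 3) : ℂ))
    have I67 := (i6.const_mul (D.m0 : ℂ)).add (i7.const_mul (D.m1 : ℂ))
    refine ⟨?_, ?_⟩
    · rw [e1]
      exact (I12.add i3).sub (I45.add I67)
    · rw [e1]
      have E1 := integral_sub (I12.add i3) (I45.add I67)
      have E2 := integral_add I12 i3
      have E3 := integral_add I45 I67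
      have E4 := integral_sub i1 (i2.const_mul (D.p * (8 / 3) : ℂ))
      have E5 := integral_add (i4.const_mul K) (i5.const_mul (D.p * (8 / 3) : ℂ))
      have E6 := integral_add (i6.const_mul (D.m0 : ℂ)) (i7.const_mul (D.m1 : ℂ))
      have E : ∫ u in Ioi (0 : ℝ), (((D.E u * cexp (-z * u) -
            (D.p * (8 / 3)) * (cexp (-(-(1 / 2)) * u) * cexp (-z * u))) + D.Z u * cexp (-z * u)) -
          ((K * (cexp (-1 * u) * cexp (-z * u)) +
            (D.p * (8 / 3)) * (cexp (-(1 / 2) * u) * cexp (-z * u))) +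
          (D.m0 * (XS (dk 0) (fun k => ((bk 0 k : ℝ) : ℂ)) u * cexp (-z * u)) +
            D.m1 * (XS (dk 1) (fun k => ((bk 1 k : ℝ) : ℂ)) u * cexp (-z * u))))) =
        ((∫ u in Ioi (0 : ℝ), D.E u * cexp (-z * u)) - ∫ u in Ioi (0 : ℝ), (D.p * (8 / 3)) *
          (cexp (-(-(1 / 2)) * u) * cexp (-z * u))) + (∫ u in Ioi (0 : ℝ), D.Z u * cexp (-z * u)) -
        (((∫ u in Ioi (0 : ℝ), K * (cexp (-1 * u) * cexp (-z * u))) +
          ∫ u in Ioi (0 : ℝ), (D.p * (8 / 3)) * (cexp (-(1 / 2) * u) * cexp (-z * u))) +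
          ((∫ u in Ioi (0 : ℝ), D.m0 * (XS (dk 0) (fun k => ((bk 0 k : ℝ) : ℂ)) u * cexp (-z * u))) +
            ∫ u in Ioi (0 : ℝ), D.m1 * (XS (dk 1) (fun k => ((bk 1 k : ℝ) : ℂ)) u * cexp (-z * u)))) := by
        rw [← E4, ← E5, ← E6]
        exact E1.trans (congrArg₂ (fun x y => x - y) E2 E3)
      rw [E, integral_const_mul, integral_const_mul, integral_const_mul, integral_const_mul,
        integral_const_mul, j1, j2, j3, j4, j5, j6, j7]
      -- the algebra
      have t0 := hK0 z (by linarith) h1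
      have t0' := hK1 z (by linarith) h1
      have x1 := D.ld z (by linarith)
      have x2 := D.ld 1 (by norm_num)
      have t1 := TT_pole (b := 1 / 2) (z := z) h4' (by norm_num) (by norm_num) h1' h2'
      have t2 := TT_pole (b := -(1 / 2)) (z := z) h3' (by norm_num) (by norm_num) h1' h2'
      have t3 := TT_const (K := (D.A : ℂ)) h1' h2'
      unfold TT at t0 t0' t1 t2 t3
      beta_reduce at t0 t0' t1 t2 t3
      have a0 : ∀ w : ℂ, 1 / 2 + w + ((0 : ℝ) : ℂ) = 1 / 2 + w := fun w => by simp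
      have a1 : ∀ w : ℂ, 1 / 2 + w + ((1 : ℝ) : ℂ) = 3 / 2 + w := fun w => by
        push_cast
        ring
      rw [a0, a0] at t0
      rw [a1, a1] at t0'
      have b1 : z + 1 / 2 = 1 / 2 + z := by ring
      have b2 : z - 1 / 2 = -(1 / 2) + z := by ring
      have b3 : (1 : ℂ) + 1 / 2 = 1 / 2 + 1 := by ring
      have b4 : (1 : ℂ) - 1 / 2 = -(1 / 2) + 1 := by ring
      rw [b1, b2] at x1
      rw [b3, b4] at x2
      have hsq : (1 : ℂ) - z ^ 2 = (1 - z) * (1 + z) := by ring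
      have hsqne : (1 : ℂ) - z ^ 2 ≠ 0 := by
        rw [hsq]
        exact mul_ne_zero h1' h2'
      have hfin : ∀ w : ℂ, -(2 / (1 - z ^ 2)) * w + 1 / (1 - z) * w = -(1 / (1 + z)) * w := by
        intro w
        rw [hsq]
        field_simp
        ring
      have hfin1 := hfin (logDeriv D.X 1)
      have x1' : D.S z = D.A + D.m0 * logDeriv Gammaℝ (1 / 2 + z) + D.m1 * logDeriv Gammaℝ (3 / 2 + z) +
          D.p * (1 / (1 / 2 + z) + 1 / (-(1 / 2) + z)) - logDeriv D.X z := by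
        linear_combination x1
      have x2' : D.S 1 = D.A + D.m0 * logDeriv Gammaℝ (1 / 2 + 1) + D.m1 * logDeriv Gammaℝ (3 / 2 + 1) +
          D.p * (1 / (1 / 2 + 1) + 1 / (-(1 / 2) + 1)) - logDeriv D.X 1 := by
        linear_combination x2
      have hKK : ∑' a : ℂ, cz D a = K - (D.A + D.m0 * K0 + D.m1 * K1 - D.p * (8 / 3) -
          logDeriv D.X 1) := by
        rw [hK]
        ring
      rw [x1', x2', hKK]
      linear_combination (D.m0 : ℂ) * t0 + (D.m1 : ℂ) * t0' + (D.p : ℂ) * t1 + (D.p : ℂ) * t2 + t3 + hfin1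
  have hz2 : (1 : ℝ) < (((2 : ℝ) : ℂ)).re := by
    rw [Complex.ofReal_re]
    norm_num
  have h0 := lt_unique (σ := 2) hgc (key _ hz2).1 (fun y => (key (((2 : ℝ) : ℂ) + y * I) (by simp)).2) hu
  have h5 : D.P u = D.E u - (D.p * (8 / 3)) * cexp (1 / 2 * u) := by
    unfold Dat.P
    rw [Complex.ofReal_mul, Complex.ofReal_exp]
    push_cast
    rw [mul_assoc]
    congr 4
    ring
  rw [h5]
  exact sub_eq_zero.1 h0

/-- NF-EF -/
theorem ef (hPF : S_PF) : S_EF := by
  intro D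
  obtain ⟨K, hform⟩ := formula D hPF
  have hl : ∀ a : ℝ, 0 ≤ a → ∀ k : ℕ, 1 / 4 ≤ (((bk a k : ℝ) : ℂ)).re := fun a ha k => by
    rw [Complex.ofReal_re]
    linarith [bk_pos ha k]
  set S0 : ℝ := ∑' k, ‖dk 0 k‖ with hS0
  set S1 : ℝ := ∑' k, ‖dk 1 k‖ with hS1
  have hS00 : 0 ≤ S0 := tsum_nonneg fun k => norm_nonneg _
  have hS10 : 0 ≤ S1 := tsum_nonneg fun k => norm_nonneg _
  set C0 : ℝ := ‖D.P 0 + D.Z 0‖ with hC0
  have hC00 : 0 ≤ C0 := norm_nonneg _
  set B : ℂ := D.p * (8 / 3) with hB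
  refine ⟨C0 + (‖K‖ + ‖B‖ + (D.m0 * S0 + D.m1 * S1)), fun u hu => ?_⟩
  rcases hu.eq_or_lt with rfl | hu0
  · have e : Real.exp (-(0 / 4)) = 1 := by simp
    rw [e, mul_one]
    have : 0 ≤ ‖K‖ + ‖B‖ + (D.m0 * S0 + D.m1 * S1) := by positivity
    linarith
  · rw [hform u hu0]
    have hexp : ∀ b : ℝ, 1 / 4 ≤ b → Real.exp (-(b * u)) ≤ Real.exp (-(u / 4)) := by
      intro b hb
      refine Real.exp_le_exp.2 ?_
      nlinarith
    have n1 : ‖K * cexp (-1 * u)‖ ≤ ‖K‖ * Real.exp (-(u / 4)) := by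
      rw [norm_mul, Complex.norm_exp]
      refine mul_le_mul_of_nonneg_left ?_ (norm_nonneg _)
      have e : (-1 * (u : ℂ)).re = -(1 * u) := by simp
      rw [e]
      exact hexp 1 (by norm_num)
    have n2 : ‖B * cexp (-(1 / 2) * u)‖ ≤ ‖B‖ * Real.exp (-(u / 4)) := by
      rw [norm_mul, Complex.norm_exp]
      refine mul_le_mul_of_nonneg_left ?_ (norm_nonneg _)
      have e : (-(1 / 2) * (u : ℂ)).re = -(1 / 2 * u) := by
        rw [Complex.re_mul_ofReal, Complex.neg_re, half_re']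
        ring
      rw [e]
      exact hexp (1 / 2) (by norm_num)
    have e4 : Real.exp (-(1 / 4 * u)) = Real.exp (-(u / 4)) := by
      congr 1
      ring
    have n3 : ‖(D.m0 : ℂ) * XS (dk 0) (fun k => ((bk 0 k : ℝ) : ℂ)) u‖ ≤
        D.m0 * (S0 * Real.exp (-(u / 4))) := by
      rw [norm_mul, Complex.norm_natCast]
      refine mul_le_mul_of_nonneg_left ?_ (Nat.cast_nonneg _)
      have h3 := XS_bound (hl 0 le_rfl) (dk_sum le_rfl) hu
      rwa [e4] at h3
    have n4 : ‖(D.m1 : ℂ) * XS (dk 1) (fun k => ((bk 1 k : ℝ) : ℂ)) u‖ ≤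
        D.m1 * (S1 * Real.exp (-(u / 4))) := by
      rw [norm_mul, Complex.norm_natCast]
      refine mul_le_mul_of_nonneg_left ?_ (Nat.cast_nonneg _)
      have h3 := XS_bound (hl 1 zero_le_one) (dk_sum zero_le_one) hu
      rwa [e4] at h3
    have h1 := norm_add_le (K * cexp (-1 * u) + B * cexp (-(1 / 2) * u))
      ((D.m0 : ℂ) * XS (dk 0) (fun k => ((bk 0 k : ℝ) : ℂ)) u +
        D.m1 * XS (dk 1) (fun k => ((bk 1 k : ℝ) : ℂ)) u)
    have h2 := norm_add_le (K * cexp (-1 * u)) (B * cexp (-(1 / 2) * u))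
    have h3 := norm_add_le ((D.m0 : ℂ) * XS (dk 0) (fun k => ((bk 0 k : ℝ) : ℂ)) u)
      (D.m1 * XS (dk 1) (fun k => ((bk 1 k : ℝ) : ℂ)) u)
    have h4 : 0 ≤ C0 * Real.exp (-(u / 4)) := by positivity
    have e : (C0 + (‖K‖ + ‖B‖ + (D.m0 * S0 + D.m1 * S1))) * Real.exp (-(u / 4)) =
      C0 * Real.exp (-(u / 4)) + (‖K‖ * Real.exp (-(u / 4)) + ‖B‖ * Real.exp (-(u / 4)) +
        (D.m0 * (S0 * Real.exp (-(u / 4))) + D.m1 * (S1 * Real.exp (-(u / 4))))) := by
      ring
    rw [e]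
    linarith

end Pool.Agent.H734.NF
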